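import Pool.Agent.Helper48_AEC.DIS
import Pool.Agent.Helper41_AEC.FIN

open FirstOrder FirstOrder.Language Cardinal Set

universe u

namespace Pool.Agent.AEC.H69

theorem dir (fin : FinStmt.{u}) : DirStmt.{u} := by
  classical
  intro L κ K U _ ι _ _ _ S mono hemb i
  have hd : Directed (· ≤ ·) (fun i : ι => i) := fun a b => exists_ge_ge a b
  obtain ⟨v, hv1, hv2⟩ := H48.exists_bound (fun i : ι => i) hd
  let M : Finset ι → L.Substructure U := fun s => S (v s)
  have hM : Monotone M := fun t s h => mono (hv2 t s h)
  have key := fin L κ K U ι M hM (fun s t h => hemb _ _ (hv2 s t h)) ({i} : Set ι) Set.univ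
    (Set.subset_univ _)
  have hU : unionOver M Set.univ = ⨆ i, S i := by
    apply le_antisymm
    · exact iSup_le fun s => le_iSup S _
    · refine iSup_le fun j => ?_
      refine le_trans (mono (hv1 {j} j (Finset.mem_singleton_self j))) ?_
      exact le_iSup_of_le (⟨{j}, Set.subset_univ _⟩ :
        {s : Finset ι // (s : Set ι) ⊆ Set.univ}) le_rfl
  have hi : unionOver M ({i} : Set ι) = S (v {i}) := by
    apply le_antisymm
    · refine iSup_le fun s => ?_
      refine mono (hv2 _ _ ?_)
      intro a ha
      exact Finset.mem_singleton.2 (s.2 ha)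
    · exact le_iSup_of_le (⟨{i}, by simp⟩ :
        {s : Finset ι // (s : Set ι) ⊆ {i}}) le_rfl
  have h1 := H41.incl_congr K hi hU (unionOver_mono M (Set.subset_univ _))
    (le_iSup S (v {i})) key
  have h2 := hemb i (v {i}) (hv1 {i} i (Finset.mem_singleton_self i))
  exact K.comp h2 h1

end Pool.Agent.AEC.H69
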