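import Pool.Agent.AEC.StmtsD

open FirstOrder FirstOrder.Language Cardinal Set

universe u

namespace Pool.Agent.AEC.H69

theorem bdd_of_le (χ : Cardinal.{u}) (hχ : ℵ₀ ≤ χ) {ι : Type u} (hι : #ι ≤ χ)
    (s : ι → (Order.succ χ).ord.ToType) : ∃ i, ∀ a, s a ≤ i := by
  by_contra hcon
  have h1 : IsCofinal (Set.range s) := by
    intro i
    by_contra hno
    apply hcon
    refine ⟨i, fun a => ?_⟩
    by_contra ha
    exact hno ⟨s a, ⟨a, rfl⟩, (not_le.1 ha).le⟩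
  have h2 := Order.cof_le h1
  rw [Ordinal.cof_toType, (Cardinal.isRegular_succ hχ).cof_ord] at h2
  exact absurd (h2.trans (Cardinal.mk_range_le.trans hι)) (not_le.2 (Order.lt_succ χ))

theorem lap (trc : TrcStmt.{u}) (dlm : DlmStmt.{u}) : LapStmt.{u} := by
  intro L κ K hW χ₀ M
  set χ : Cardinal.{u} := max χ₀ ℵ₀ with hχdef
  have hχ : ℵ₀ ≤ χ := le_max_right _ _
  have hc : ℵ₀ ≤ Order.succ χ := hχ.trans (Order.le_succ _)
  have hne : Nonempty (Order.succ χ).ord.ToType :=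
    Cardinal.nonempty_ord_toType (by
      intro h
      rw [h] at hc
      exact absurd hc (not_le.2 Cardinal.aleph0_pos))
  have hmax : NoMaxOrder (Order.succ χ).ord.ToType := Cardinal.noMaxOrder hc
  obtain ⟨F, m, b, hid, hcomp, hb, -, hR⟩ := trc L κ K M (fun _ => True)
    (fun A B _ f => ∀ (ι : Type u) (C : ι → K.Mod) (g : ∀ i, K.Hom B (C i)), AEC.Amalg f C g)
    (Order.succ χ).ord.ToType χ
    (fun j => Order.lt_succ_iff.1 (Cardinal.mk_Iio_toType_ord_lt j))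
    (fun _ _ _ _ _ _ _ _ _ _ _ _ _ => trivial) trivial
    (fun A _ _ => by
      obtain ⟨N, e, h⟩ := hW A
      exact ⟨N, e, trivial, h⟩)
  obtain ⟨G, s, hs, hsurj⟩ := dlm L κ K (Order.succ χ).ord.ToType F m hid hcomp
  obtain ⟨i₀⟩ := hne
  refine ⟨G, (s i₀).comp (b i₀), ?_⟩
  intro A hA ι C f
  have hst : ∀ x : A, ∃ (i : (Order.succ χ).ord.ToType) (y : (F i).α), s i y = (x : G.α) :=
    fun x => hsurj x
  choose ix yx hyx using hst
  obtain ⟨i, hi⟩ := bdd_of_le χ hχ (hA.trans (le_max_left _ _)) ix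
  letI : SuccOrder (Order.succ χ).ord.ToType := SuccOrder.ofLinearWellFoundedLT _
  have hij : i ⋖ Order.succ i := Order.covBy_succ i
  set j := Order.succ i with hjdef
  obtain ⟨Z, w, hw⟩ := hR i j hij ι C (fun k => (f k).comp (s j))
  refine ⟨Z, w, fun k k' x hx => ?_⟩
  have h1 := hw k k' (m (ix ⟨x, hx⟩) i (hi ⟨x, hx⟩) (yx ⟨x, hx⟩))
  have h2 : s j (m i j hij.le (m (ix ⟨x, hx⟩) i (hi ⟨x, hx⟩) (yx ⟨x, hx⟩))) = x := by
    rw [hs, hs, hyx ⟨x, hx⟩]
  simp only [AEC.Hom.comp_apply] at h1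
  rw [h2] at h1
  exact h1

end Pool.Agent.AEC.H69
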