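import Pool.Agent.AEC.StmtsB

open FirstOrder FirstOrder.Language Cardinal Set

universe u

namespace Pool.Agent.AEC.H69

theorem w1a (stb : StbStmt.{u}) (dne : DneStmt.{u}) (dam : DamStmt.{u}) (emb : EmbStmt.{u}) :
    W1aStmt.{u} := by
  intro L κ K ⟨E⟩ hU M
  by_cases hmax : ∃ (N : K.Mod) (_ : K.Hom M N), AEC.IsMax N
  · obtain ⟨N, e, hN⟩ := hmax
    refine ⟨N, e, fun ι B f => ?_⟩
    have hw : ∀ i, ∃ w : K.Hom (B i) N, ∀ x, w (f i x) = x := by
      intro i
      obtain ⟨w, hw⟩ := AEC.Hom.exists_factor (AEC.Hom.id (B i)) (f i) (fun b => hN (B i) (f i) b)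
      exact ⟨w, fun x => (f i).injective (hw (f i x))⟩
    choose w hw using hw
    exact ⟨N, w, fun i j x => by rw [hw, hw]⟩
  · have hno : ∀ (N : K.Mod) (_ : K.Hom M N), ¬ AEC.IsMax N := fun N e h => hmax ⟨N, e, h⟩
    set X : Type u := (#M.α + κ).out with hX
    have hXc : #X = #M.α + κ := Cardinal.mk_out _
    obtain ⟨N, e, -, hst⟩ := stb L κ K M (E.Sg M X) (fun B e => E.D X e) (fun _ => True)
      (by
        rintro B C e f σ ⟨I, hI, v, g, hg⟩
        exact ⟨I, hI, v, g.comp f, fun x => hg x⟩)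
      (fun _ _ _ _ _ _ _ _ _ _ _ _ _ => trivial) trivial
    refine ⟨N, e, fun ι B f => ?_⟩
    obtain ⟨l, hl, hcat⟩ := hU (#N.α + κ)
    obtain ⟨g⟩ := emb L κ K E N (fun C f => hno C (f.comp e)) l hl hcat
    obtain ⟨σ, hσ⟩ := dne L κ K E X M N e
      (by rw [hXc]; exact add_le_add le_rfl K.aleph0_le) l.ord.ToType g
    exact dam L κ K E X M N e ι B f σ (fun i => by
      rw [hst (B i) (f i) trivial]
      exact hσ)

end Pool.Agent.AEC.H69
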