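import Pool.Agent.AEC.StmtsC

open FirstOrder FirstOrder.Language Cardinal Set

universe u

namespace Pool.Agent.AEC.H69

theorem w2g (hS : S2gStmt.{u}) : W2gStmt.{u} := by
  intro L κ K l χ hχ hl hlχ hc
  obtain ⟨G, hG, hGP⟩ := hS L κ K l χ hχ hl hlχ hc
  intro M hM A hA' ι B f hB'
  obtain ⟨θ⟩ := hc.2 G M hG hM
  have hAc : #(θ ⁻¹' A : Set G.α) ≤ χ := by
    refine le_trans ?_ hA'
    exact Cardinal.mk_preimage_of_injective θ A θ.injective
  obtain ⟨Z, w, hw⟩ := hGP (θ ⁻¹' A) hAc ι B (fun i => (f i).comp (AEC.Hom.ofEquiv θ)) hB'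
  refine ⟨Z, w, fun i j x hx => ?_⟩
  have h1 := hw i j (θ.symm x) (by
    change θ (θ.symm x) ∈ A
    rw [FirstOrder.Language.Equiv.apply_symm_apply]
    exact hx)
  have h2 : (AEC.Hom.ofEquiv θ) (θ.symm x) = x := by
    rw [AEC.Hom.ofEquiv_apply]
    exact FirstOrder.Language.Equiv.apply_symm_apply θ x
  simp only [AEC.Hom.comp_apply, h2] at h1
  exact h1

end Pool.Agent.AEC.H69
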