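import Pool.Agent.Helper77_AEC.REL
import Pool.Agent.Helper41_AEC.FIN
import Pool.Agent.Helper48_AEC.DIS
import Pool.Agent.Helper69_AEC.DIR
import Pool.Agent.Helper41_AEC.DLM
import Pool.Agent.Helper51_AEC.DLU
import Pool.Agent.Helper24_AEC.PRS
import Pool.Agent.Helper51_AEC.EHS
import Pool.Agent.Helper52_AEC.ERD
import Pool.Agent.Helper18_AEC.TPS
import Pool.Agent.Helper46_AEC.TPA
import Pool.Agent.Helper82_AEC.TPB
import Pool.Agent.Helper52_AEC.EMX
import Pool.Agent.Helper69_AEC.SPT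
import Pool.Agent.Helper74_AEC.AMO
import Pool.Agent.Helper41_AEC.TRC
import Pool.Agent.Helper76_AEC.CCL
import Pool.Agent.Helper17_AEC.SIZ
import Pool.Agent.Helper91_AEC.STB
import Pool.Agent.Helper25_AEC.SMC
import Pool.Agent.Helper63_AEC.SML
import Pool.Agent.Helper84_AEC.LNG
import Pool.Agent.Helper41_AEC.HNF
import Pool.Agent.Helper60_AEC.CN3
import Pool.Agent.Helper33_AEC.CN4
import Pool.Agent.Helper32_AEC.DNE
import Pool.Agent.Helper72_AEC.DAM
import Pool.Agent.Helper62_AEC.EMB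
import Pool.Agent.Helper69_AEC.W1A
import Pool.Agent.Helper8_AEC.W1F
import Pool.Agent.Helper59_AEC.S1G
import Pool.Agent.Helper91_AEC.S2G
import Pool.Agent.Helper69_AEC.W2G
import Pool.Agent.Helper69_AEC.LAP

/-!
# Squad AEC (problem MP_23d7af_lc): assembly of the base and of the theorems W1 and W2
-/

universe u

namespace Pool.Agent.AEC.Base

theorem rel : RelStmt.{u} := H77.rel_
theorem fin_ : FinStmt.{u} := H41.fin_ rel
theorem dir : DirStmt.{u} := H69.dir fin_
theorem dis : DisStmt.{u} := H48.dis fin_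
theorem dlm : DlmStmt.{u} := H41.dlm dir
theorem dlu : DluStmt.{u} := H51.dlu dis
theorem trc : TrcStmt.{u} := H41.trc dlm dlu
theorem ccl : CclStmt.{u} := H76.ccl
theorem stb : StbStmt.{u} := H91.stb trc
theorem siz : SizStmt.{u} := H17.siz trc dlm ccl
theorem prs : PrsStmt.{u} := H24.prs
theorem erd : ErdStmt.{u} := H52.erd H51.ehs
theorem tpa : TpaStmt.{u} := H46.tpa prs (H18.tps erd)
theorem tpb : TpbStmt.{u} := H82.tpb
theorem emx : EmxStmt.{u} := H52.emx dlm dlu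
theorem spt : SptStmt.{u} := H69.spt
theorem amo : AmoStmt.{u} := H74.amo
theorem smc : SmcStmt.{u} := H25.smc fin_
theorem sml : SmlStmt.{u} := H63.sml smc
theorem lng : LngStmt.{u} := H84.lng
theorem hnf : HnfStmt.{u} := H41.hnf sml lng
theorem cn3 : Cn3Stmt.{u} := H60.cn3
theorem cn4 : Cn4Stmt.{u} := H33.cn4
theorem dne : DneStmt.{u} := H32.dne spt
theorem dam : DamStmt.{u} := H72.dam amo
theorem emb : EmbStmt.{u} := H62.emb siz
theorem w1a : W1aStmt.{u} := H69.w1a stb dne dam emb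
theorem w1f : W1fStmt.{u} := H8.w1f hnf tpa tpb emx w1a

/-- Theorem W1 in the local form. -/
theorem lapf : ∀ κ : Cardinal.{u}, ∃ μ : Cardinal.{u},
    ∀ (L : FirstOrder.Language.{u, u}) (K : AEC L κ), (∃ l, μ ≤ l ∧ K.Cat l) → K.LAP := by
  intro κ
  obtain ⟨μ, hμ⟩ := w1f κ
  exact ⟨μ, fun L K h => H69.lap trc dlm L κ K (hμ L K h)⟩

/-- Theorem W2. -/
theorem w2g : W2gStmt.{u} := H69.w2g (H91.s2g (H59.s1g stb ccl cn3 cn4) trc ccl dlm)

end Pool.Agent.AEC.Base
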