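import Pool.Agent.AEC.StmtsB

open FirstOrder FirstOrder.Language Cardinal Set

universe u

namespace Pool.Agent.AEC.H69

theorem spt : SptStmt.{u} := by
  intro L κ K E A I _ g
  choose s y hsy using fun x : A.α => E.supp I (g x)
  have hcard : #(⋃ x, (s x : Set I) : Set I) ≤ #A.α + ℵ₀ := by
    refine (Cardinal.mk_iUnion_le_sum_mk).trans ?_
    refine (Cardinal.sum_le_sum _ (fun _ => ℵ₀) (fun x => ?_)).trans ?_
    · exact (Cardinal.lt_aleph0_of_finite _).le
    · rw [Cardinal.sum_const, Cardinal.lift_id, Cardinal.lift_id]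
      refine (Cardinal.mul_le_max _ _).trans ?_
      refine max_le (max_le (self_le_add_right _ _) (self_le_add_left _ _))
        (self_le_add_left _ _)
  refine ⟨⋃ x, (s x : Set I), hcard, ?_⟩
  have hr : ∀ x : A.α, ∃ b, E.map (OrderEmbedding.subtype
      fun i => i ∈ (⋃ x, (s x : Set I) : Set I)) b = g x := by
    intro x
    have hsub : (s x : Set I) ⊆ ⋃ x, (s x : Set I) := Set.subset_iUnion (fun x => (s x : Set I)) x
    let a : (s x : Set I) ↪o (⋃ x, (s x : Set I) : Set I) :=
      OrderEmbedding.ofStrictMono (Set.inclusion hsub) (fun _ _ h => h)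
    refine ⟨E.map a (y x), ?_⟩
    rw [← hsy x]
    exact (E.map_comp a (OrderEmbedding.subtype fun i => i ∈ (⋃ x, (s x : Set I) : Set I))
      (OrderEmbedding.subtype fun i => i ∈ (s x : Set I)) (fun i => rfl) (y x)).symm
  exact AEC.Hom.exists_factor g _ hr

end Pool.Agent.AEC.H69
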